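import Mathlib

set_option autoImplicit false

/-!
# The local dimension of the Boolean lattice

The local dimension of the Boolean lattice `2^n` is at most `n - n / 4` for every `n`; in
particular it is smaller than `n` for every `n ≥ 4` (already `ldim (2^4) = 3`), while it equals
`n` for `n ≤ 3`.
-/

namespace Pool.Agent.Results.MP_666a49_co.BooleanLocalDim

/-- A partial linear extension (ple) of the poset `α`: a linear order on a finite subset of `α`,
written as the duplicate-free list of its elements in increasing order, in which no element is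
listed before an element that is strictly below it in `α`. -/
def IsPLE {α : Type} [PartialOrder α] (L : List α) : Prop :=
  L.Nodup ∧ L.Pairwise (fun x y => ¬ y < x)

/-- `x` and `y` are both listed in `L`, with `x` before `y`. -/
def Before {α : Type} (L : List α) (x y : α) : Prop := [x, y].Sublist L

/-- `F` is a local realizer of `α`: a finite family of ples such that for `x < y` some member
lists `x` before `y`, and for incomparable `x`, `y` some member lists `x` before `y` and some
member lists `y` before `x`. -/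
structure IsLocalRealizer {α : Type} [PartialOrder α] (F : Finset (List α)) : Prop where
  ple : ∀ L ∈ F, IsPLE L
  lt : ∀ x y : α, x < y → ∃ L ∈ F, Before L x y
  incomp : ∀ x y : α, ¬ x ≤ y → ¬ y ≤ x →
    (∃ L ∈ F, Before L x y) ∧ ∃ L ∈ F, Before L y x

/-- The number of members of `F` that contain `x`. -/
noncomputable def freq {α : Type} (F : Finset (List α)) (x : α) : ℕ :=
  {L | L ∈ F ∧ x ∈ L}.ncard

/-- The local dimension of `α`: the least `k` for which some local realizer of `α` has every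
element of `α` in at most `k` of its members. -/
noncomputable def ldim (α : Type) [PartialOrder α] : ℕ :=
  sInf {k | ∃ F : Finset (List α), IsLocalRealizer F ∧ ∀ x, freq F x ≤ k}

/-- `α` has a local realizer with every element in at most `k` members. -/
def Has (α : Type) [PartialOrder α] (k : ℕ) : Prop :=
  ∃ F : Finset (List α), IsLocalRealizer F ∧ ∀ x, freq F x ≤ k

theorem Has.mono {α : Type} [PartialOrder α] {k l : ℕ} (h : Has α k) (hkl : k ≤ l) :
    Has α l := by
  obtain ⟨F, hF, hk⟩ := h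
  exact ⟨F, hF, fun x => (hk x).trans hkl⟩

theorem Has.ldim_le {α : Type} [PartialOrder α] {k : ℕ} (h : Has α k) : ldim α ≤ k :=
  Nat.sInf_le h

theorem has_ldim {α : Type} [PartialOrder α] {k : ℕ} (h : Has α k) : Has α (ldim α) :=
  Nat.sInf_mem (s := {k | ∃ F : Finset (List α), IsLocalRealizer F ∧ ∀ x, freq F x ≤ k}) ⟨k, h⟩

theorem IsLocalRealizer.before {α : Type} [PartialOrder α] {F : Finset (List α)}
    (hF : IsLocalRealizer F) {x y : α} (h : ¬ y ≤ x) : ∃ L ∈ F, Before L x y := by
  by_cases hxy : x ≤ y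
  · exact hF.lt x y (lt_of_le_not_ge hxy h)
  · exact (hF.incomp x y hxy h).1

theorem IsLocalRealizer.mk' {α : Type} [PartialOrder α] {F : Finset (List α)}
    (h1 : ∀ L ∈ F, IsPLE L) (h2 : ∀ x y : α, ¬ y ≤ x → ∃ L ∈ F, Before L x y) :
    IsLocalRealizer F where
  ple := h1
  lt := fun x y hxy => h2 x y (not_le_of_gt hxy)
  incomp := fun x y hxy hyx => ⟨h2 x y hyx, h2 y x hxy⟩

/-- A finite poset has a linear extension, as a list. -/
theorem exists_linext (β : Type) [PartialOrder β] [Fintype β] :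
    ∃ M : List β, IsPLE M ∧ ∀ b, b ∈ M := by
  classical
  obtain ⟨s, hs, hle⟩ := extend_partialOrder ((· ≤ ·) : β → β → Prop)
  refine ⟨(Finset.univ : Finset β).sort s, ⟨Finset.sort_nodup _ _, ?_⟩, ?_⟩
  · have h1 : ((Finset.univ : Finset β).sort s).Pairwise s := Finset.pairwise_sort _ _
    have hn : ((Finset.univ : Finset β).sort s).Pairwise (· ≠ ·) := Finset.sort_nodup _ _
    refine (h1.and hn).imp ?_
    intro x y hxy hlt
    exact hxy.2 (hs.antisymm _ _ hxy.1 (hle _ _ hlt.le))
  · intro b
    exact (Finset.mem_sort _).2 (Finset.mem_univ b)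

theorem before_product {α β : Type} {L : List α} {M : List β} {x y : α} (h : Before L x y)
    (hM : ∀ b, b ∈ M) (a b : β) : Before (L.product M) (x, a) (y, b) := by
  have h1 : ([x, y].flatMap fun a => M.map (Prod.mk a)).Sublist
      (L.flatMap fun a => M.map (Prod.mk a)) := by
    exact List.Sublist.flatMap h _
  refine List.Sublist.trans ?_ h1
  simp only [List.flatMap_cons, List.flatMap_nil, List.append_nil]
  have h2 : [(x, a)].Sublist (M.map (Prod.mk x)) := by
    rw [List.singleton_sublist]; exact List.mem_map_of_mem (hM a)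
  have h3 : [(y, b)].Sublist (M.map (Prod.mk y)) := by
    rw [List.singleton_sublist]; exact List.mem_map_of_mem (hM b)
  exact h2.append h3

theorem ple_product {α β : Type} [PartialOrder α] [PartialOrder β] {L : List α} {M : List β}
    (hL : IsPLE L) (hM : IsPLE M) : IsPLE (L.product M) := by
  refine ⟨hL.1.product hM.1, ?_⟩
  change (L.flatMap fun a => M.map (Prod.mk a)).Pairwise _
  rw [List.pairwise_flatMap]
  refine ⟨?_, ?_⟩
  · intro a _
    rw [List.pairwise_map]
    refine hM.2.imp ?_
    intro b c hbc hlt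
    exact hbc (Prod.mk_lt_mk_iff_right.1 hlt)
  · have hn : L.Pairwise (· ≠ ·) := hL.1
    refine (hL.2.and hn).imp ?_
    intro a1 a2 h p hp q hq hlt
    rw [List.mem_map] at hp hq
    obtain ⟨b, _, rfl⟩ := hp
    obtain ⟨c, _, rfl⟩ := hq
    have h1 : a2 ≤ a1 := (Prod.mk_le_mk.1 hlt.le).1
    exact h.1 (lt_of_le_of_ne h1 (Ne.symm h.2))

theorem ple_map_iso {α β : Type} [PartialOrder α] [PartialOrder β] (e : α ≃o β) {L : List α}
    (hL : IsPLE L) : IsPLE (L.map e) := by
  refine ⟨hL.1.map e.injective, ?_⟩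
  rw [List.pairwise_map]
  exact hL.2.imp (fun {a b} h hlt => h (e.lt_iff_lt.1 hlt))

theorem freq_fin {α : Type} (F : Finset (List α)) (x : α) : {L | L ∈ F ∧ x ∈ L}.Finite :=
  F.finite_toSet.subset (fun _ h => h.1)

theorem freq_image_le {α γ : Type} [DecidableEq (List γ)] (F : Finset (List α))
    (g : List α → List γ) (x : α) (z : γ)
    (h : ∀ L ∈ F, z ∈ g L → x ∈ L) : freq (F.image g) z ≤ freq F x := by
  unfold freq
  have hsub : {N | N ∈ F.image g ∧ z ∈ N} ⊆ g '' {L | L ∈ F ∧ x ∈ L} := by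
    rintro N ⟨hN, hz⟩
    rw [Finset.mem_image] at hN
    obtain ⟨L, hL, rfl⟩ := hN
    exact ⟨L, ⟨hL, h L hL hz⟩, rfl⟩
  exact (Set.ncard_le_ncard hsub ((freq_fin F x).image g)).trans
    (Set.ncard_image_le (freq_fin F x))

theorem freq_union_le {α : Type} [DecidableEq (List α)] (F G : Finset (List α)) (x : α) :
    freq (F ∪ G) x ≤ freq F x + freq G x := by
  unfold freq
  have hsub : {L | L ∈ F ∪ G ∧ x ∈ L} ⊆ {L | L ∈ F ∧ x ∈ L} ∪ {L | L ∈ G ∧ x ∈ L} := by
    rintro L ⟨hL, hx⟩
    rw [Finset.mem_union] at hL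
    rcases hL with hL | hL
    · exact Or.inl ⟨hL, hx⟩
    · exact Or.inr ⟨hL, hx⟩
  exact (Set.ncard_le_ncard hsub ((freq_fin F x).union (freq_fin G x))).trans
    (Set.ncard_union_le _ _)

/-- Subadditivity of the local dimension under products. -/
theorem Has.prod {α β : Type} [PartialOrder α] [PartialOrder β] [Fintype α] [Fintype β]
    {k l : ℕ} (hα : Has α k) (hβ : Has β l) : Has (α × β) (k + l) := by
  classical
  obtain ⟨F, hF, hk⟩ := hα
  obtain ⟨G, hG, hl⟩ := hβ
  obtain ⟨A, hA, hA'⟩ := exists_linext α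
  obtain ⟨B, hB, hB'⟩ := exists_linext β
  refine ⟨F.image (fun L => L.product B) ∪
    G.image (fun N => (N.product A).map (Prod.swap : β × α → α × β)), ?_, ?_⟩
  · refine IsLocalRealizer.mk' ?_ ?_
    · intro L hL
      rw [Finset.mem_union, Finset.mem_image, Finset.mem_image] at hL
      rcases hL with ⟨L', hL', rfl⟩ | ⟨N, hN, rfl⟩
      · exact ple_product (hF.ple _ hL') hB
      · exact ple_map_iso (OrderIso.prodComm : β × α ≃o α × β) (ple_product (hG.ple _ hN) hA)
    · rintro ⟨x, a⟩ ⟨y, b⟩ hxy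
      rw [Prod.mk_le_mk, not_and_or] at hxy
      rcases hxy with hxy | hab
      · obtain ⟨L, hL, hb⟩ := hF.before hxy
        exact ⟨_, Finset.mem_union_left _ (Finset.mem_image_of_mem _ hL),
          before_product hb hB' a b⟩
      · obtain ⟨N, hN, hb⟩ := hG.before hab
        refine ⟨_, Finset.mem_union_right _ (Finset.mem_image_of_mem _ hN), ?_⟩
        exact (before_product hb hA' x y).map (Prod.swap : β × α → α × β)
  · rintro ⟨x, a⟩
    refine (freq_union_le _ _ _).trans (add_le_add ?_ ?_)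
    · refine (freq_image_le F _ x (x, a) ?_).trans (hk x)
      intro L _ h
      exact (List.pair_mem_product.1 h).1
    · refine (freq_image_le G _ a (x, a) ?_).trans (hl a)
      intro N _ h
      rw [List.mem_map] at h
      obtain ⟨⟨a', x'⟩, h1, h2⟩ := h
      have h3 : a' = a := (Prod.mk.inj h2).2
      rw [← h3]
      exact (List.pair_mem_product.1 h1).1

/-- Transfer along an order isomorphism. -/
theorem Has.iso {α β : Type} [PartialOrder α] [PartialOrder β] (e : α ≃o β) {k : ℕ}
    (h : Has α k) : Has β k := by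
  classical
  obtain ⟨F, hF, hk⟩ := h
  refine ⟨F.image (fun L => L.map e), IsLocalRealizer.mk' ?_ ?_, ?_⟩
  · intro L hL
    rw [Finset.mem_image] at hL
    obtain ⟨L', hL', rfl⟩ := hL
    exact ple_map_iso e (hF.ple _ hL')
  · intro x y hxy
    have h1 : ¬ e.symm y ≤ e.symm x := by rwa [e.symm.le_iff_le]
    obtain ⟨L, hL, hb⟩ := hF.before h1
    refine ⟨_, Finset.mem_image_of_mem _ hL, ?_⟩
    have h2 := List.Sublist.map e hb
    unfold Before
    simpa using h2
  · intro x
    refine (freq_image_le F _ (e.symm x) x ?_).trans (hk _)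
    intro L _ h
    rw [List.mem_map] at h
    obtain ⟨a, ha, rfl⟩ := h
    simpa using ha

/-- The Boolean lattice of rank `m + n` is a product. -/
noncomputable def boolIso (m n : ℕ) :
    Finset (Fin m) × Finset (Fin n) ≃o Finset (Fin (m + n)) :=
  (Finset.sumEquiv (α := Fin m) (β := Fin n)).symm.trans
    { toEquiv := (finSumFinEquiv (m := m) (n := n)).finsetCongr
      map_rel_iff' := by
        intro s t
        simp [Equiv.finsetCongr] }

theorem has_zero : Has (Finset (Fin 0)) 0 := by
  refine ⟨∅, IsLocalRealizer.mk' (by simp) ?_, ?_⟩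
  · intro x y h
    exact absurd (le_of_eq (Subsingleton.elim y x)) h
  · intro x; simp [freq]

theorem has_one : Has (Finset (Fin 1)) 1 := by
  refine ⟨{[∅, Finset.univ]}, IsLocalRealizer.mk' ?_ ?_, ?_⟩
  · intro L hL
    rw [Finset.mem_singleton] at hL
    subst hL
    unfold IsPLE
    decide
  · unfold Before
    decide
  · intro x
    unfold freq
    have hsub : {L | L ∈ ({[∅, Finset.univ]} : Finset (List (Finset (Fin 1)))) ∧ x ∈ L} ⊆
        {[∅, Finset.univ]} := by
      rintro L ⟨hL, _⟩
      rwa [Finset.mem_singleton] at hL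
    exact (Set.ncard_le_ncard hsub (Set.finite_singleton _)).trans
      (le_of_eq (Set.ncard_singleton _))

/-- The subset of `{0,1,2,3}` with a given binary code. -/
def fs (k : ℕ) : Finset (Fin 4) := Finset.univ.filter (fun i => k.testBit i.val)

/-- First member of the local realizer of `2^4`. -/
def L1 : List (Finset (Fin 4)) := [6, 1, 3, 7, 8, 9, 10].map fs
/-- Second member. -/
def L2 : List (Finset (Fin 4)) := [0, 4, 5, 8, 12, 13, 2, 10, 6, 14, 7, 11, 15].map fs
/-- Third member. -/
def L3 : List (Finset (Fin 4)) := [0, 1, 9, 2, 3, 11, 4, 6, 5, 7, 12, 14, 13, 15].map fs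
/-- Fourth member. -/
def L4 : List (Finset (Fin 4)) := [0, 2, 8, 10, 4, 12, 14, 1, 5, 9, 13, 3, 11, 15].map fs

theorem four_before : ∀ x y : Finset (Fin 4), ¬ y ≤ x →
    ∃ L ∈ [L1, L2, L3, L4], List.Sublist [x, y] L := by
  decide +kernel

theorem four_ple : ∀ L ∈ [L1, L2, L3, L4],
    L.Nodup ∧ L.Pairwise (fun x y => ¬ y < x) := by
  decide +kernel

theorem four_freq : ∀ x : Finset (Fin 4),
    ([L1, L2, L3, L4].filter (fun L => x ∈ L)).length ≤ 3 := by
  decide +kernel

/-- `ldim (2^4) ≤ 3`. -/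
theorem has_four : Has (Finset (Fin 4)) 3 := by
  classical
  refine ⟨[L1, L2, L3, L4].toFinset, IsLocalRealizer.mk' ?_ ?_, ?_⟩
  · intro L hL
    exact four_ple L (List.mem_toFinset.1 hL)
  · intro x y h
    obtain ⟨L, hL, hb⟩ := four_before x y h
    exact ⟨L, List.mem_toFinset.2 hL, hb⟩
  · intro x
    refine le_trans ?_ (four_freq x)
    have h1 : freq [L1, L2, L3, L4].toFinset x =
        ([L1, L2, L3, L4].filter (fun L => x ∈ L)).toFinset.card := by
      unfold freq
      rw [← Set.ncard_coe_finset]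
      congr 1
      ext L
      simp
    rw [h1]
    exact List.toFinset_card_le _

theorem has_general (n : ℕ) : Has (Finset (Fin n)) (n - n / 4) := by
  induction n using Nat.strong_induction_on with
  | _ n ih =>
    rcases lt_or_ge n 4 with h4 | h4
    · have h0 : n / 4 = 0 := Nat.div_eq_of_lt h4
      rw [h0, Nat.sub_zero]
      rcases Nat.eq_zero_or_pos n with h | h
      · subst h; exact has_zero
      · obtain ⟨m, rfl⟩ : ∃ m, n = m + 1 := ⟨n - 1, by omega⟩
        have h1 := ih m (by omega)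
        have h2 : m / 4 = 0 := Nat.div_eq_of_lt (by omega)
        rw [h2, Nat.sub_zero] at h1
        exact (h1.prod has_one).iso (boolIso m 1)
    · obtain ⟨m, rfl⟩ : ∃ m, n = m + 4 := ⟨n - 4, by omega⟩
      have h1 := ih m (by omega)
      refine ((h1.prod has_four).iso (boolIso m 4)).mono ?_
      omega

/-! ### Lower bounds for `n ≤ 3` -/

theorem before_idx {α : Type} [DecidableEq α] {L : List α} (hn : L.Nodup) {x y : α}
    (h : Before L x y) : L.idxOf x < L.idxOf y := by
  induction L with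
  | nil => simp [Before] at h
  | cons c L ih =>
    unfold Before at h
    rw [List.nodup_cons] at hn
    cases h with
    | cons _ h' =>
      have hx : x ∈ L := h'.subset (by simp)
      have hy : y ∈ L := h'.subset (by simp)
      have hcx : c ≠ x := fun e => hn.1 (e ▸ hx)
      have hcy : c ≠ y := fun e => hn.1 (e ▸ hy)
      rw [List.idxOf_cons_ne _ hcx, List.idxOf_cons_ne _ hcy]
      have := ih hn.2 h'
      omega
    | cons_cons _ h' =>
      have hy : y ∈ L := by simpa using h'
      have hcy : x ≠ y := fun e => hn.1 (e ▸ hy)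
      rw [List.idxOf_cons_self, List.idxOf_cons_ne _ hcy]
      omega

theorem ple_idx {α : Type} [DecidableEq α] [PartialOrder α] {L : List α} (hL : IsPLE L)
    {x y : α} (hx : x ∈ L) (hy : y ∈ L) (h : x < y) : L.idxOf x < L.idxOf y := by
  by_contra hcon
  have hne : L.idxOf x ≠ L.idxOf y := by
    intro e
    exact h.ne ((List.idxOf_inj hx).1 e)
  have hlt : L.idxOf y < L.idxOf x := by omega
  have h1 := List.pairwise_iff_getElem.1 hL.2 (L.idxOf y) (L.idxOf x)
    (List.idxOf_lt_length_of_mem hy) (List.idxOf_lt_length_of_mem hx) hlt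
  rw [List.getElem_idxOf, List.getElem_idxOf] at h1
  exact h1 h

/-- The members of `F` that contain `x`. -/
def mem' {α : Type} (F : Finset (List α)) (x : α) : Set (List α) :=
  {L | L ∈ F ∧ x ∈ L}

theorem before_mem {α : Type} {L : List α} {x y : α} (h : Before L x y) : x ∈ L ∧ y ∈ L :=
  ⟨h.subset (by simp), h.subset (by simp)⟩

/-- Two incomparable elements lie in two distinct common members. -/
theorem two_common {α : Type} [PartialOrder α] {F : Finset (List α)} (hF : IsLocalRealizer F)
    {x y : α} (h1 : ¬ x ≤ y) (h2 : ¬ y ≤ x) :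
    ∃ L ∈ F, ∃ M ∈ F, L ≠ M ∧ Before L x y ∧ Before M y x := by
  classical
  obtain ⟨⟨L, hL, hb⟩, M, hM, hb'⟩ := hF.incomp x y h1 h2
  refine ⟨L, hL, M, hM, ?_, hb, hb'⟩
  rintro rfl
  have e1 := before_idx (hF.ple _ hL).1 hb
  have e2 := before_idx (hF.ple _ hL).1 hb'
  omega

theorem lower_one {k : ℕ} (h : Has (Finset (Fin 1)) k) : 1 ≤ k := by
  classical
  obtain ⟨F, hF, hk⟩ := h
  obtain ⟨L, hL, hb⟩ := hF.lt ∅ Finset.univ (by decide)
  refine le_trans ?_ (hk ∅)
  exact (Set.ncard_pos (freq_fin F _)).2 ⟨L, hL, (before_mem hb).1⟩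

theorem lower_two {k : ℕ} (h : Has (Finset (Fin 2)) k) : 2 ≤ k := by
  classical
  obtain ⟨F, hF, hk⟩ := h
  obtain ⟨L, hL, M, hM, hne, hb, hb'⟩ :=
    two_common hF (x := {0}) (y := {1}) (by decide) (by decide)
  refine le_trans ?_ (hk {0})
  exact (Set.one_lt_ncard (freq_fin F _)).2 ⟨L, ⟨hL, (before_mem hb).1⟩, M,
    ⟨hM, (before_mem hb').2⟩, hne⟩

theorem mem_pair {α : Type} [PartialOrder α] {F : Finset (List α)} (hF : IsLocalRealizer F)
    (hk : ∀ x, freq F x ≤ 2) {x y : α} (h1 : ¬ x ≤ y) (h2 : ¬ y ≤ x) :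
    ∃ L ∈ F, ∃ M ∈ F, L ≠ M ∧ Before L x y ∧ Before M y x ∧ mem' F x = {L, M} ∧
      mem' F y = {L, M} := by
  classical
  obtain ⟨L, hL, M, hM, hne, hb, hb'⟩ := two_common hF h1 h2
  have key : ∀ z, z ∈ L → z ∈ M → mem' F z = {L, M} := by
    intro z hzL hzM
    symm
    apply Set.eq_of_subset_of_ncard_le
    · intro N hN
      rw [Set.mem_insert_iff, Set.mem_singleton_iff] at hN
      unfold mem'
      rcases hN with rfl | rfl
      · exact ⟨hL, hzL⟩
      · exact ⟨hM, hzM⟩
    · rw [Set.ncard_pair hne]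
      exact hk z
    · exact (F.finite_toSet).subset (fun N hN => hN.1)
  exact ⟨L, hL, M, hM, hne, hb, hb', key x (before_mem hb).1 (before_mem hb').2,
    key y (before_mem hb).2 (before_mem hb').1⟩

theorem lower_three {k : ℕ} (h : Has (Finset (Fin 3)) k) : 3 ≤ k := by
  classical
  by_contra hcon
  obtain ⟨F, hF, hk⟩ := h.mono (show k ≤ 2 by omega)
  -- atoms `a i` and coatoms `b i`
  let a : Fin 3 → Finset (Fin 3) := fun i => {i}
  let b : Fin 3 → Finset (Fin 3) := fun i => Finset.univ \ {i}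
  have hab : ∀ i j : Fin 3, i ≠ j → a i < b j := by decide
  have haa : ∀ i j : Fin 3, i ≠ j → ¬ a i ≤ a j := by decide
  have hai : ∀ i : Fin 3, ¬ a i ≤ b i := by decide
  have hbi : ∀ i : Fin 3, ¬ b i ≤ a i := by decide
  obtain ⟨L, hL, M, hM, hne, -, -, h0, h1⟩ :=
    mem_pair hF hk (haa 0 1 (by decide)) (haa 1 0 (by decide))
  have heq : ∀ i, mem' F (a i) = {L, M} := by
    intro i
    by_cases hi : i = 0
    · rw [hi]; exact h0
    · obtain ⟨L', _, M', _, _, -, -, e1, e2⟩ :=
        mem_pair hF hk (haa i 0 hi) (haa 0 i (Ne.symm hi))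
      rw [e1, ← e2]; exact h0
  have heqb : ∀ i, mem' F (b i) = {L, M} := by
    intro i
    obtain ⟨L', _, M', _, _, -, -, e1, e2⟩ := mem_pair hF hk (hai i) (hbi i)
    rw [e2, ← e1]; exact heq i
  have hmem : ∀ z, mem' F z = {L, M} → z ∈ L ∧ z ∈ M := by
    intro z hz
    have h3 : L ∈ mem' F z := by rw [hz]; simp
    have h4 : M ∈ mem' F z := by rw [hz]; simp
    exact ⟨h3.2, h4.2⟩
  -- for each `i`, `b i` is before `a i` in `L` or in `M`
  have hor : ∀ i, (L.idxOf (b i) < L.idxOf (a i)) ∨ (M.idxOf (b i) < M.idxOf (a i)) := by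
    intro i
    obtain ⟨N, hN, hb⟩ := hF.before (hai i)
    have hN' : N ∈ mem' F (b i) := ⟨hN, (before_mem hb).1⟩
    rw [heqb i, Set.mem_insert_iff, Set.mem_singleton_iff] at hN'
    have := before_idx (hF.ple _ hN).1 hb
    rcases hN' with rfl | rfl
    · exact Or.inl this
    · exact Or.inr this
  have hbad : ∀ N ∈ F, (∀ i, a i ∈ N ∧ b i ∈ N) → ∀ i j : Fin 3, i ≠ j →
      N.idxOf (b i) < N.idxOf (a i) → N.idxOf (b j) < N.idxOf (a j) → False := by
    intro N hN hm i j hij e1 e2
    have e3 := ple_idx (hF.ple _ hN) (hm i).1 (hm j).2 (hab i j hij)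
    have e4 := ple_idx (hF.ple _ hN) (hm j).1 (hm i).2 (hab j i (Ne.symm hij))
    omega
  have hLm : ∀ i, a i ∈ L ∧ b i ∈ L := fun i =>
    ⟨(hmem _ (heq i)).1, (hmem _ (heqb i)).1⟩
  have hMm : ∀ i, a i ∈ M ∧ b i ∈ M := fun i =>
    ⟨(hmem _ (heq i)).2, (hmem _ (heqb i)).2⟩
  have bL := hbad L hL hLm
  have bM := hbad M hM hMm
  rcases hor 0 with p0 | p0 <;> rcases hor 1 with p1 | p1 <;> rcases hor 2 with p2 | p2
  · exact bL 0 1 (by decide) p0 p1
  · exact bL 0 1 (by decide) p0 p1
  · exact bL 0 2 (by decide) p0 p2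
  · exact bM 1 2 (by decide) p1 p2
  · exact bL 1 2 (by decide) p1 p2
  · exact bM 0 2 (by decide) p0 p2
  · exact bM 0 1 (by decide) p0 p1
  · exact bM 0 1 (by decide) p0 p1

/-- The local dimension of the Boolean lattice `2^n` equals `n` exactly when `n ≤ 3`; moreover it
is at most `n - ⌊n/4⌋` for every `n`. -/
theorem result :
    (∀ n : ℕ, ldim (Finset (Fin n)) = n ↔ n ≤ 3) ∧
      ∀ n : ℕ, ldim (Finset (Fin n)) ≤ n - n / 4 := by
  have hup : ∀ n : ℕ, ldim (Finset (Fin n)) ≤ n - n / 4 := fun n => (has_general n).ldim_le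
  refine ⟨fun n => ⟨fun h => ?_, fun h => ?_⟩, hup⟩
  · by_contra hn
    have := hup n
    omega
  · have h1 := hup n
    have h2 := has_ldim (has_general n)
    have h3 : n = 0 ∨ n = 1 ∨ n = 2 ∨ n = 3 := by omega
    rcases h3 with rfl | rfl | rfl | rfl
    · omega
    · have := lower_one h2; omega
    · have := lower_two h2; omega
    · have := lower_three h2; omega

end Pool.Agent.Results.MP_666a49_co.BooleanLocalDim
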